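import Pool.Agent.Helper85.GP.Slab
import Pool.Agent.Helper19.BK.Slab

/-!
# Project GP (MP_13b103_pr), block C3: the slab lemma (helper85)

From the one-cut slab step of `Pool/Agent/Helper19/BK/Slab.lean` (cloning of edges) and the iteration
of `Pool/Agent/Helper85/GP/Slab.lean`.  No constant depends on the lower bound `a` of the weights,
and there is no condition on `g - h`.
-/

set_option autoImplicit false

namespace Pool.Agent.Helper85.GP

open MeasureTheory ProbabilityTheory Filter Pool.Agent.Helper79.GR Pool.Agent.Helper79.GQ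
  Pool.Agent.Helper51.NP
open scoped Topology ENNReal

variable {Ω : Type*} [MeasurableSpace Ω] {P : Measure Ω} {d : ℕ} {X : Edge d → Ω → ℝ}
  {ν : Measure ℝ} {a b l : ℝ}

/-- the slab lemma at one point of `{h = 1}` -/
theorem slab_env (hE : Env P X ν a b) (hb : 0 ≤ b) (hl : 0 < l) (g h : F d →L[ℝ] ℝ) {w : ℕ}
    (hw : 1 ≤ w) {K n : ℝ} (hK : 2 * ‖h‖ * w ≤ K) (hK' : w * (‖h‖ * d) ≤ K) (hn : 0 < n)
    (hKn : K ≤ n) (x : F d) (hx : h x = 1) :
    ENNReal.ofReal (Real.exp (l * n * (g x - nl P X l x))) ≤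
      ENNReal.ofReal (Real.exp (2 * l * b * (d * w))) *
      ∑' q : {q : V d // |h (rv (w • q)) - n| ≤ 2 * K},
        ENNReal.ofReal (Z P X l 0 (w • q.1) * Real.exp (l * g (rv (w • q.1)))) := by
  have h1 := slab (fun x => ENNReal.ofReal (Z P X l 0 x)) (subM_al hE hl) hl
    (fun x => by rw [Z_eq hE hl]) g h hw (C := Real.exp (2 * l * b * (d * w))) (Real.exp_pos _)
    hn hKn hK' (fun x t ht hx => Helper19.BK.slab_step hE hb hl.le h hw hK ht hx) x hx
  refine h1.trans (le_of_eq ?_)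
  congr 1
  unfold slb
  refine tsum_congr fun q => ?_
  unfold tl
  rw [← ENNReal.ofReal_mul (Z_pos hE 0 _).le]

/-- the slab lemma for the supremum over `{h = 1}` -/
theorem slab_env_sup (hE : Env P X ν a b) (hb : 0 ≤ b) (hl : 0 < l) (g h : F d →L[ℝ] ℝ) {w : ℕ}
    (hw : 1 ≤ w) {K n D : ℝ} (hK : 2 * ‖h‖ * w ≤ K) (hK' : w * (‖h‖ * d) ≤ K) (hn : 0 < n)
    (hKn : K ≤ n) (hD : ∀ t < D, ∃ x, h x = 1 ∧ t < g x - nl P X l x) :
    ENNReal.ofReal (Real.exp (l * n * D)) ≤
      ENNReal.ofReal (Real.exp (2 * l * b * (d * w))) *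
      ∑' q : {q : V d // |h (rv (w • q)) - n| ≤ 2 * K},
        ENNReal.ofReal (Z P X l 0 (w • q.1) * Real.exp (l * g (rv (w • q.1)))) := by
  have hc : Continuous fun t : ℝ => ENNReal.ofReal (Real.exp (l * n * t)) := by
    refine ENNReal.continuous_ofReal.comp (Real.continuous_exp.comp ?_)
    exact continuous_const.mul continuous_id
  have ht : Tendsto (fun t : ℝ => ENNReal.ofReal (Real.exp (l * n * t))) (𝓝[<] D)
      (𝓝 (ENNReal.ofReal (Real.exp (l * n * D)))) := (hc.tendsto D).mono_left nhdsWithin_le_nhds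
  refine le_of_tendsto ht ?_
  filter_upwards [self_mem_nhdsWithin] with t htD
  obtain ⟨x, hx, hxt⟩ := hD t htD
  refine le_trans (ENNReal.ofReal_le_ofReal (Real.exp_le_exp.2 ?_))
    (slab_env hE hb hl g h hw hK hK' hn hKn x hx)
  exact mul_le_mul_of_nonneg_left hxt.le (by positivity)

end Pool.Agent.Helper85.GP
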