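import Pool.Agent.Helper51.NP.A

/-!
# Project GP (MP_13b103_pr), block C3: the slab lemma from one cut (helper85)

`Z : V d → ENNReal` is any function with the one-cut inequality
`Z x ≤ C ∑ over the lattice points w q with |h (w q) - t| ≤ K of Z (w q) Z (x - w q)`
(`0 ≤ t ≤ h x`) and `exp (- l m x) ≤ Z x`, `m` subadditive.  Then
`exp (l n (g x - tc m x)) ≤ C ∑ over |h (w q) - n| ≤ 2 K of Z (w q) exp (l g (w q))`
for all `x` with `h x = 1`.
-/

set_option autoImplicit false

namespace Pool.Agent.Helper85.GP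

open Filter Pool.Agent.Helper79.GR Pool.Agent.Helper79.GQ
open scoped Topology ENNReal

variable {d : ℕ}

/-- the tilted function -/
noncomputable def tl (Z : V d → ENNReal) (l : ℝ) (g : F d →L[ℝ] ℝ) (x : V d) : ENNReal :=
  Z x * ENNReal.ofReal (Real.exp (l * g (rv x)))

/-- the slab sum at the height `n` -/
noncomputable def slb (Z : V d → ENNReal) (l : ℝ) (g h : F d →L[ℝ] ℝ) (w : ℕ) (K n : ℝ) :
    ENNReal :=
  ∑' q : {q : V d // |h (rv (w • q)) - n| ≤ K}, tl Z l g (w • q.1)

theorem tl_mul (Z : V d → ENNReal) (l : ℝ) (g : F d →L[ℝ] ℝ) (x y : V d) :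
    tl Z l g y * tl Z l g (x - y) = Z y * Z (x - y) *
      ENNReal.ofReal (Real.exp (l * g (rv x))) := by
  unfold tl
  have e1 : Real.exp (l * g (rv x)) =
      Real.exp (l * g (rv y)) * Real.exp (l * g (rv (x - y))) := by
    rw [← Real.exp_add, ← mul_add, ← map_add, ← rv_add, add_sub_cancel]
  rw [e1, ENNReal.ofReal_mul (Real.exp_pos _).le]
  ring

theorem slab_iter (Z : V d → ENNReal) (l : ℝ) (g h : F d →L[ℝ] ℝ) (w : ℕ) (K n : ℝ)
    (C : ENNReal) (hn : 0 ≤ n) (hKn : K ≤ n) (hK : 0 ≤ K)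
    (step : ∀ (x : V d) (t : ℝ), 0 ≤ t → t ≤ h (rv x) → Z x ≤
      C * ∑' q : {q : V d // |h (rv (w • q)) - t| ≤ K}, Z (w • q.1) * Z (x - w • q.1))
    (N : ℕ) : ∀ x : V d, |h (rv (w • x)) - (N + 1) * n| ≤ K →
      tl Z l g (w • x) ≤ C ^ N * slb Z l g h w (2 * K) n ^ (N + 1) := by
  induction N with
  | zero =>
    intro x hx
    rw [pow_zero, one_mul, zero_add, pow_one]
    have hx' : |h (rv (w • x)) - n| ≤ 2 * K := by
      rw [Nat.cast_zero, zero_add, one_mul] at hx
      linarith
    unfold slb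
    exact ENNReal.le_tsum (f := fun q : {q : V d // |h (rv (w • q)) - n| ≤ 2 * K} =>
      tl Z l g (w • q.1)) ⟨x, hx'⟩
  | succ N ih =>
    intro x hx
    have hx1 := abs_le.1 hx
    push_cast at hx1
    have hN : (0 : ℝ) ≤ N := Nat.cast_nonneg N
    have h1 := step (w • x) ((N + 1) * n) (by positivity) (by nlinarith)
    have h2 : tl Z l g (w • x) ≤ C * ∑' q : {q : V d // |h (rv (w • q)) - (N + 1) * n| ≤ K},
        tl Z l g (w • q.1) * tl Z l g (w • x - w • q.1) := by
      have e1 : (fun q : {q : V d // |h (rv (w • q)) - (N + 1) * n| ≤ K} =>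
          tl Z l g (w • q.1) * tl Z l g (w • x - w • q.1)) = fun q =>
          (Z (w • q.1) * Z (w • x - w • q.1)) *
            ENNReal.ofReal (Real.exp (l * g (rv (w • x)))) := by
        funext q
        exact tl_mul Z l g (w • x) (w • q.1)
      rw [e1, ENNReal.tsum_mul_right, ← mul_assoc]
      exact mul_le_mul_left h1 _
    refine h2.trans ?_
    have h3 : ∑' q : {q : V d // |h (rv (w • q)) - (N + 1) * n| ≤ K},
        tl Z l g (w • q.1) * tl Z l g (w • x - w • q.1) ≤
        ∑' q : {q : V d // |h (rv (w • q)) - (N + 1) * n| ≤ K},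
          (C ^ N * slb Z l g h w (2 * K) n ^ (N + 1)) * tl Z l g (w • x - w • q.1) := by
      refine ENNReal.tsum_le_tsum fun q => mul_le_mul_left ?_ _
      exact ih q.1 q.2
    have h4 : ∑' q : {q : V d // |h (rv (w • q)) - (N + 1) * n| ≤ K},
        tl Z l g (w • x - w • q.1) ≤ slb Z l g h w (2 * K) n := by
      have hmem : ∀ q : {q : V d // |h (rv (w • q)) - (N + 1) * n| ≤ K},
          |h (rv (w • (x - q.1))) - n| ≤ 2 * K := by
        intro q
        have hq := abs_le.1 q.2
        have e2 : h (rv (w • (x - q.1))) = h (rv (w • x)) - h (rv (w • q.1)) := by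
          rw [smul_sub, rv_sub, map_sub]
        rw [e2, abs_le]
        constructor <;> linarith
      have hinj : Function.Injective
          (fun q : {q : V d // |h (rv (w • q)) - (N + 1) * n| ≤ K} =>
            (⟨x - q.1, hmem q⟩ : {q : V d // |h (rv (w • q)) - n| ≤ 2 * K})) := by
        intro q q' hqq
        have h5 : x - q.1 = x - q'.1 := congrArg Subtype.val hqq
        exact Subtype.ext (sub_right_injective h5)
      have h6 := ENNReal.tsum_comp_le_tsum_of_injective hinj
        (fun q : {q : V d // |h (rv (w • q)) - n| ≤ 2 * K} => tl Z l g (w • q.1))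
      refine (le_of_eq ?_).trans h6
      refine tsum_congr fun q => ?_
      show tl Z l g (w • x - w • q.1) = tl Z l g (w • (x - q.1))
      rw [smul_sub]
    calc C * ∑' q : {q : V d // |h (rv (w • q)) - (N + 1) * n| ≤ K},
          tl Z l g (w • q.1) * tl Z l g (w • x - w • q.1)
        ≤ C * ((C ^ N * slb Z l g h w (2 * K) n ^ (N + 1)) * slb Z l g h w (2 * K) n) := by
          refine mul_le_mul_right (h3.trans ?_) _
          rw [ENNReal.tsum_mul_left]
          exact mul_le_mul_right h4 _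
      _ = C ^ (N + 1) * slb Z l g h w (2 * K) n ^ (N + 1 + 1) := by ring

/-- a continuous linear functional at the integer part -/
theorem abs_apply_fl (f : F d →L[ℝ] ℝ) (n : ℕ) (x : F d) :
    |f (rv (fl n x)) - n * f x| ≤ ‖f‖ * d := by
  have h1 : f (rv (fl n x)) - n * f x = f (rv (fl n x) - (n : ℝ) • x) := by
    rw [map_sub, map_smul, smul_eq_mul]
  rw [h1, ← Real.norm_eq_abs]
  refine (f.le_opNorm _).trans (mul_le_mul_of_nonneg_left ?_ (norm_nonneg _))
  refine (?_ : ‖rv (fl n x) - (n : ℝ) • x‖ ≤ nr (rv (fl n x) - (n : ℝ) • x)).trans (nr_fl n x)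
  refine (pi_norm_le_iff_of_nonneg (nr_nonneg _)).2 fun i => ?_
  exact Finset.single_le_sum (f := fun i => |(rv (fl n x) - (n : ℝ) • x) i|)
    (fun i _ => abs_nonneg _) (Finset.mem_univ i)

theorem tendsto_apply_fl (f : F d →L[ℝ] ℝ) (x : F d) :
    Tendsto (fun n : ℕ => f (rv (fl n x)) / n) atTop (𝓝 (f x)) := by
  have h1 : Tendsto (fun n : ℕ => ‖f‖ * d / (n : ℝ)) atTop (𝓝 0) :=
    tendsto_const_nhds.div_atTop tendsto_natCast_atTop_atTop
  rw [tendsto_iff_dist_tendsto_zero]
  refine squeeze_zero' (Eventually.of_forall fun n => dist_nonneg) ?_ h1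
  filter_upwards [eventually_gt_atTop 0] with n hn
  have hn' : (0 : ℝ) < n := by exact_mod_cast hn
  rw [Real.dist_eq, div_sub' hn'.ne', abs_div, abs_of_pos hn']
  exact div_le_div_of_nonneg_right (abs_apply_fl f n x) hn'.le

theorem subM_nsmul_le {a b : ℝ} {m : V d → ℝ} (hm : SubM a b m) (v : V d) (j : ℕ) :
    m (j • v) ≤ j * m v := by
  induction j with
  | zero =>
    have h1 := hm.hi 0
    have h2 : n1 (0 : V d) = 0 := by simp [n1]
    rw [h2, mul_zero] at h1
    simpa using h1
  | succ j ih =>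
    rw [succ_nsmul]
    have := hm.add (j • v) v
    push_cast
    linarith

theorem slab (Z : V d → ENNReal) {a b : ℝ} {m : V d → ℝ} (hm : SubM a b m) {l : ℝ}
    (hl : 0 < l) (hZ : ∀ x, ENNReal.ofReal (Real.exp (-(l * m x))) ≤ Z x)
    (g h : F d →L[ℝ] ℝ) {w : ℕ} (hw : 1 ≤ w) {K n : ℝ}
    {C : ℝ} (hC : 0 < C) (hn : 0 < n) (hKn : K ≤ n) (hKw : w * (‖h‖ * d) ≤ K)
    (step : ∀ (x : V d) (t : ℝ), 0 ≤ t → t ≤ h (rv x) → Z x ≤ ENNReal.ofReal C *
      ∑' q : {q : V d // |h (rv (w • q)) - t| ≤ K}, Z (w • q.1) * Z (x - w • q.1))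
    (x : F d) (hx : h x = 1) :
    ENNReal.ofReal (Real.exp (l * n * (g x - tc m x))) ≤
      ENNReal.ofReal C * slb Z l g h w (2 * K) n := by
  have hw0 : (0 : ℝ) < w := by exact_mod_cast hw
  have hK : 0 ≤ K := le_trans (by positivity) hKw
  -- if the slab sum is infinite there is nothing to do
  by_cases hS : slb Z l g h w (2 * K) n = ⊤
  · rw [hS, ENNReal.mul_top (by simpa using hC)]
    exact le_top
  obtain ⟨S, hS0, hSe⟩ : ∃ S : ℝ, 0 ≤ S ∧ slb Z l g h w (2 * K) n = ENNReal.ofReal S :=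
    ⟨(slb Z l g h w (2 * K) n).toReal, ENNReal.toReal_nonneg, (ENNReal.ofReal_toReal hS).symm⟩
  rw [hSe, ← ENNReal.ofReal_mul hC.le]
  obtain ⟨y, hy⟩ : ∃ y : F d, y = (n / w) • x := ⟨_, rfl⟩
  have hyx : (w : ℝ) • y = n • x := by
    rw [hy, smul_smul]
    congr 1
    field_simp
  have hwin : ∀ N : ℕ, |h (rv (w • fl N y)) - N * n| ≤ K := by
    intro N
    have h1 := abs_apply_fl h N y
    have e1 : h (rv (w • fl N y)) - N * n = w * (h (rv (fl N y)) - N * h y) := by
      have e2 : (w : ℝ) * h y = n := by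
        have := congrArg h hyx
        rw [map_smul, map_smul, hx, smul_eq_mul, smul_eq_mul, mul_one] at this
        exact this
      rw [rv_nsmul, map_smul, smul_eq_mul]
      linear_combination (N : ℝ) * e2
    rw [e1, abs_mul, abs_of_pos hw0]
    exact (mul_le_mul_of_nonneg_left h1 hw0.le).trans hKw
  have key : ∀ N : ℕ, Real.exp (l * (g (rv (w • fl (N + 1) y)) - w * m (fl (N + 1) y))) ≤
      C ^ N * S ^ (N + 1) := by
    intro N
    have h1 := slab_iter Z l g h w K n (ENNReal.ofReal C) hn.le hKn hK step N (fl (N + 1) y)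
      (by
        have := hwin (N + 1)
        push_cast at this
        exact this)
    rw [hSe, ← ENNReal.ofReal_pow hC.le, ← ENNReal.ofReal_pow hS0,
      ← ENNReal.ofReal_mul (by positivity)] at h1
    have h2 : ENNReal.ofReal (Real.exp (l * (g (rv (w • fl (N + 1) y)) -
        w * m (fl (N + 1) y)))) ≤ tl Z l g (w • fl (N + 1) y) := by
      have h3 : Real.exp (l * (g (rv (w • fl (N + 1) y)) - w * m (fl (N + 1) y))) ≤
          Real.exp (-(l * m (w • fl (N + 1) y))) *
            Real.exp (l * g (rv (w • fl (N + 1) y))) := by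
        rw [← Real.exp_add]
        apply Real.exp_le_exp.2
        have := mul_le_mul_of_nonneg_left (subM_nsmul_le hm (fl (N + 1) y) w) hl.le
        nlinarith
      refine (ENNReal.ofReal_le_ofReal h3).trans ?_
      rw [ENNReal.ofReal_mul (Real.exp_pos _).le]
      exact mul_le_mul_left (hZ _) _
    have h4 := h2.trans h1
    exact (ENNReal.ofReal_le_ofReal_iff (by positivity)).1 h4
  have hSpos : 0 < S := by
    rcases hS0.lt_or_eq with h0 | h0
    · exact h0
    · exfalso
      have h1 := key 0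
      rw [← h0, pow_zero, one_mul, zero_add, pow_one] at h1
      exact absurd h1 (not_le.2 (Real.exp_pos _))
  have key2 : ∀ N : ℕ, l * (g (rv (w • fl (N + 1) y)) - w * m (fl (N + 1) y)) / ((N + 1 : ℕ) : ℝ)
      ≤ Real.log (C * S) - Real.log C / ((N + 1 : ℕ) : ℝ) := by
    intro N
    have hN : (0 : ℝ) < ((N + 1 : ℕ) : ℝ) := by positivity
    have h1 := Real.log_le_log (Real.exp_pos _) (key N)
    rw [Real.log_exp, Real.log_mul (by positivity) (by positivity), Real.log_pow,
      Real.log_pow] at h1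
    rw [div_le_iff₀ hN, sub_mul, div_mul_cancel₀ _ hN.ne', Real.log_mul hC.ne' hSpos.ne']
    push_cast at h1 ⊢
    linarith
  have t1 : Tendsto (fun N : ℕ => l * (g (rv (w • fl N y)) - w * m (fl N y)) / (N : ℝ)) atTop
      (𝓝 (l * (w * g y - w * tc m y))) := by
    have h1 := ((tendsto_apply_fl g y).const_mul (w : ℝ)).sub
      ((tendsto_tc hm y).const_mul (w : ℝ))
    have h2 := h1.const_mul l
    refine h2.congr fun N => ?_
    rw [rv_nsmul, map_smul, smul_eq_mul]
    ring
  have t2 : Tendsto (fun N : ℕ => Real.log (C * S) - Real.log C / (N : ℝ)) atTop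
      (𝓝 (Real.log (C * S) - 0)) :=
    tendsto_const_nhds.sub (tendsto_const_nhds.div_atTop tendsto_natCast_atTop_atTop)
  rw [sub_zero] at t2
  have h5 := le_of_tendsto_of_tendsto ((tendsto_add_atTop_iff_nat 1).2 t1)
    ((tendsto_add_atTop_iff_nat 1).2 t2) (Eventually.of_forall key2)
  have e3 : l * (w * g y - w * tc m y) = l * n * (g x - tc m x) := by
    have e4 : (w : ℝ) * g y = n * g x := by
      have := congrArg g hyx
      rw [map_smul, map_smul, smul_eq_mul, smul_eq_mul] at this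
      exact this
    have e5 : (w : ℝ) * tc m y = n * tc m x := by
      rw [← tc_smul hm (w : ℝ) hw0.le y, hyx, tc_smul hm n hn.le x]
    rw [e4, e5]
    ring
  rw [e3] at h5
  refine ENNReal.ofReal_le_ofReal ?_
  have h6 := Real.exp_le_exp.2 h5
  rwa [Real.exp_log (mul_pos hC hSpos)] at h6

end Pool.Agent.Helper85.GP
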